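import Pool.Agent.Helper96.ME.Lib

/-!
# MP_bde085_nt, block E: module EIS
-/

set_option autoImplicit false

namespace Pool.Agent.Helper96.ME

open scoped MatrixGroups
open Lib

section eis

variable {p : ℕ} [Fact p.Prime]

/-- `(1,0;x,1)` -/
def eis_low (x : ZMod p) : SL(2, ZMod p) :=
  ⟨!![1, 0; x, 1], by simp [Matrix.det_fin_two_of]⟩

def eis_w0 : SL(2, ZMod p) :=
  ⟨!![0, 1; -1, 0], by simp [Matrix.det_fin_two_of]⟩

theorem eis_low00 (x : ZMod p) : (eis_low x) 0 0 = 1 := rfl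
theorem eis_low01 (x : ZMod p) : (eis_low x) 0 1 = 0 := rfl
theorem eis_low10 (x : ZMod p) : (eis_low x) 1 0 = x := rfl
theorem eis_low11 (x : ZMod p) : (eis_low x) 1 1 = 1 := rfl
theorem eis_w00 : (eis_w0 : SL(2, ZMod p)) 0 0 = 0 := rfl
theorem eis_w01 : (eis_w0 : SL(2, ZMod p)) 0 1 = 1 := rfl
theorem eis_w10 : (eis_w0 : SL(2, ZMod p)) 1 0 = -1 := rfl
theorem eis_w11 : (eis_w0 : SL(2, ZMod p)) 1 1 = 0 := rfl

/-- Bruhat decomposition -/
theorem eis_bruhat (g : SL(2, ZMod p)) :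
    (∃ (x : ZMod p) (u : (ZMod p)ˣ) (b : ZMod p), g = eis_low x * (dg u * un b)) ∨
    (∃ (u : (ZMod p)ˣ) (b : ZMod p), g = eis_w0 * (dg u * un b)) := by
  have hd := det1 g
  by_cases h : g 0 0 = 0
  · right
    have h10 : g 1 0 ≠ 0 := by
      intro hc
      rw [h, hc] at hd
      simp at hd
    have h3 : (((-(Units.mk0 (g 1 0) h10))⁻¹ : (ZMod p)ˣ) : ZMod p) = -(g 1 0)⁻¹ := by
      rw [inv_neg]
      simp
    have h4 : ((-(Units.mk0 (g 1 0) h10) : (ZMod p)ˣ) : ZMod p) = -(g 1 0) := by simp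
    refine ⟨-(Units.mk0 (g 1 0) h10), (g 1 0)⁻¹ * g 1 1, ?_⟩
    apply ext4
    · rw [mul00, mul10, eis_w00, eis_w01, dg10, un00, dg11, un10, h]
      ring
    · rw [mul01, mul11, eis_w00, eis_w01, dg10, dg11, un01, un11, h3]
      field_simp
      rw [h] at hd
      linear_combination -hd
    · rw [mul10, mul00, eis_w10, eis_w11, dg00, dg01, un00, un10, h4]
      ring
    · rw [mul11, mul01, eis_w10, eis_w11, dg00, dg01, un01, un11, h4]
      field_simp
      ring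
  · left
    have h3 : (((Units.mk0 (g 0 0) h)⁻¹ : (ZMod p)ˣ) : ZMod p) = (g 0 0)⁻¹ := by simp
    have h4 : ((Units.mk0 (g 0 0) h : (ZMod p)ˣ) : ZMod p) = g 0 0 := rfl
    refine ⟨(g 0 0)⁻¹ * g 1 0, Units.mk0 (g 0 0) h, (g 0 0)⁻¹ * g 0 1, ?_⟩
    apply ext4
    · rw [mul00, mul00, mul10, eis_low00, eis_low01, dg00, dg01, dg10, un00, un10, h4]
      ring
    · rw [mul01, mul01, mul11, eis_low00, eis_low01, dg00, dg01, dg10, un01, un11, h4]
      field_simp
      ring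
    · rw [mul10, mul00, mul10, eis_low10, eis_low11, dg00, dg01, dg10, dg11, un00, un10, h4]
      field_simp
      ring
    · rw [mul11, mul01, mul11, eis_low10, eis_low11, dg00, dg01, dg10, dg11, un01, un11, h4, h3]
      field_simp
      linear_combination hd

/-! ### the eigenvector -/

/-- un-invariant functions in `U` -/
def eis_UN (U : Submodule ℂ (SL(2, ZMod p) → ℂ)) : Submodule ℂ (SL(2, ZMod p) → ℂ) where
  carrier := {w | w ∈ U ∧ ∀ (b : ZMod p) (y : SL(2, ZMod p)), w (y * un b) = w y}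
  add_mem' := by
    rintro a b ⟨ha, ha'⟩ ⟨hb, hb'⟩
    refine ⟨U.add_mem ha hb, fun c y => ?_⟩
    rw [Pi.add_apply, Pi.add_apply, ha', hb']
  zero_mem' := ⟨U.zero_mem, fun _ _ => rfl⟩
  smul_mem' := by
    rintro c a ⟨ha, ha'⟩
    refine ⟨U.smul_mem c ha, fun b y => ?_⟩
    rw [Pi.smul_apply, Pi.smul_apply, ha']

/-- `w ↦ w ∘ sg u` -/
def eis_S (u : (ZMod p)ˣ) : (SL(2, ZMod p) → ℂ) →ₗ[ℂ] (SL(2, ZMod p) → ℂ) where
  toFun w := fun y => w (sg u y)
  map_add' _ _ := rfl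
  map_smul' _ _ := rfl

theorem eis_S_apply (u : (ZMod p)ˣ) (w : SL(2, ZMod p) → ℂ) (y : SL(2, ZMod p)) :
    eis_S u w y = w (sg u y) := rfl

theorem eis_eig (U : Submodule ℂ (SL(2, ZMod p) → ℂ)) (hU : ∀ (u : (ZMod p)ˣ), ∀ w ∈ U, eis_S u w ∈ U)
    (w : SL(2, ZMod p) → ℂ) (hw : w ∈ U) (hw0 : w ≠ 0)
    (hwn : ∀ (b : ZMod p) (y : SL(2, ZMod p)), w (y * un b) = w y) :
    ∃ v ∈ U, v ≠ 0 ∧ (∀ (b : ZMod p) (y : SL(2, ZMod p)), v (y * un b) = v y) ∧
      ∃ χ : (ZMod p)ˣ → ℂ, ∀ u y, v (sg u y) = χ u * v y := by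
  have hst : ∀ u : (ZMod p)ˣ, ∀ x ∈ eis_UN U, eis_S u x ∈ eis_UN U := by
    rintro u x ⟨hx, hx'⟩
    refine ⟨hU u x hx, fun b y => ?_⟩
    rw [eis_S_apply, eis_S_apply, sg_mul, sg_un, hx']
  obtain ⟨g, hg⟩ := IsCyclic.exists_generator (α := (ZMod p)ˣ)
  have hne : Nontrivial (eis_UN U) := by
    refine ⟨⟨⟨w, hw, hwn⟩, 0, fun h => hw0 ?_⟩⟩
    exact congrArg Subtype.val h
  obtain ⟨c, hc⟩ := Module.End.exists_eigenvalue ((eis_S g).restrict (hst g))
  obtain ⟨v, hv⟩ := hc.exists_hasEigenvector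
  have hv1 := hv.apply_eq_smul
  have hv2 : ∀ y, (v : SL(2, ZMod p) → ℂ) (sg g y) = c * (v : SL(2, ZMod p) → ℂ) y := by
    intro y
    have := congrArg (fun t : eis_UN U => (t : SL(2, ZMod p) → ℂ) y) hv1
    have h2 : eis_S g (v : SL(2, ZMod p) → ℂ) y = c * (v : SL(2, ZMod p) → ℂ) y := by simpa using this
    exact h2
  have hc0 : c ≠ 0 := by
    intro h
    apply hv.2
    ext y
    have := hv2 (sg g⁻¹ y)
    rw [sg_sg_inv, h, zero_mul] at this
    exact this
  refine ⟨v, v.2.1, fun h => hv.2 (Subtype.ext h), v.2.2, ?_⟩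
  have hn : ∀ (k : ℕ) (y : SL(2, ZMod p)),
      (v : SL(2, ZMod p) → ℂ) (sg (g ^ k) y) = c ^ k * (v : SL(2, ZMod p) → ℂ) y := by
    intro k
    induction k with
    | zero =>
      intro y
      rw [pow_zero, pow_zero, sg_one, one_mul]
    | succ k ih =>
      intro y
      rw [pow_succ, ← sg_sg, ih, hv2, pow_succ]
      ring
  have hex : ∀ u : (ZMod p)ˣ, ∃ k : ℕ, g ^ k = u := by
    intro u
    classical
    have := hg u
    rw [mem_zpowers_iff_mem_range_orderOf, Finset.mem_image] at this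
    obtain ⟨k, _, hk⟩ := this
    exact ⟨k, hk⟩
  choose k hk using hex
  refine ⟨fun u => c ^ k u, fun u y => ?_⟩
  rw [← hn, hk]

/-! ### the span of the translates -/

/-- the spanning translates -/
def eis_f (v : SL(2, ZMod p) → ℂ) : Option (ZMod p) → (SL(2, ZMod p) → ℂ)
  | none => fun y => v (y * eis_w0)
  | some x => fun y => v (y * eis_low x)

def eis_Z (v : SL(2, ZMod p) → ℂ) : Submodule ℂ (SL(2, ZMod p) → ℂ) :=
  Submodule.span ℂ (Set.range (eis_f v))

theorem eis_Z_rank (v : SL(2, ZMod p) → ℂ) : Module.finrank ℂ (eis_Z v) ≤ p + 1 := by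
  have h := finrank_range_le_card (R := ℂ) (eis_f v)
  rw [Fintype.card_option, ZMod.card] at h
  exact h

section

variable {v : SL(2, ZMod p) → ℂ} (hB : ∀ (u : (ZMod p)ˣ) (b : ZMod p), ∃ c : ℂ,
  ∀ y : SL(2, ZMod p), v (y * (dg u * un b)) = c * v y)

include hB

theorem eis_Z_mem (g : SL(2, ZMod p)) : (fun y => v (y * g)) ∈ eis_Z v := by
  rcases eis_bruhat g with ⟨x, u, b, rfl⟩ | ⟨u, b, rfl⟩
  · obtain ⟨c, hc⟩ := hB u b
    have : (fun y => v (y * (eis_low x * (dg u * un b)))) = c • eis_f v (some x) := by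
      funext y
      rw [← mul_assoc, hc]
      rfl
    rw [this]
    exact Submodule.smul_mem _ _ (Submodule.subset_span ⟨_, rfl⟩)
  · obtain ⟨c, hc⟩ := hB u b
    have : (fun y => v (y * (eis_w0 * (dg u * un b)))) = c • eis_f v none := by
      funext y
      rw [← mul_assoc, hc]
      rfl
    rw [this]
    exact Submodule.smul_mem _ _ (Submodule.subset_span ⟨_, rfl⟩)

theorem eis_Z_right (h : SL(2, ZMod p)) (w : SL(2, ZMod p) → ℂ) (hw : w ∈ eis_Z v) :
    (fun y => w (y * h)) ∈ eis_Z v := by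
  refine Submodule.span_induction (p := fun w _ => (fun y => w (y * h)) ∈ eis_Z v) ?_ ?_ ?_ ?_ hw
  · rintro _ ⟨o, rfl⟩
    cases o with
    | none =>
      have := eis_Z_mem hB (h * eis_w0)
      simp only [← mul_assoc] at this
      exact this
    | some x =>
      have := eis_Z_mem hB (h * eis_low x)
      simp only [← mul_assoc] at this
      exact this
  · exact (eis_Z v).zero_mem
  · intro a b _ _ ha hb
    exact (eis_Z v).add_mem ha hb
  · intro c a _ ha
    exact (eis_Z v).smul_mem c ha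

theorem eis_Z_sg {χ : (ZMod p)ˣ → ℂ} (hχ : ∀ u y, v (sg u y) = χ u * v y) (u : (ZMod p)ˣ)
    (g : SL(2, ZMod p)) : (fun y => v (sg u y * g)) ∈ eis_Z v := by
  have : (fun y => v (sg u y * g)) = χ u • fun y => v (y * sg u⁻¹ g) := by
    funext y
    rw [Pi.smul_apply, smul_eq_mul, ← hχ, sg_mul, sg_sg_inv]
  rw [this]
  exact (eis_Z v).smul_mem _ (eis_Z_mem hB _)

end

/-- `YS` in terms of sums -/
theorem eis_YS [Fintype SL(2, ZMod p)] (φ : SL(2, ZMod p) → ℝ) (w : SL(2, ZMod p) → ℂ) :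
    YS φ w ↔ ∀ y, ∑ x, (φ x : ℂ) * w (x * y) = (sq φ : ℂ) * w y := by
  unfold YS
  constructor
  · intro h y
    have := h y
    rw [finsum_eq_sum_of_fintype] at this
    simpa only [Complex.real_smul] using this
  · intro h y
    rw [finsum_eq_sum_of_fintype]
    simpa only [Complex.real_smul] using h y

end eis

/-- EIS -/
theorem st_EIS (hSPA : ST_SPA) : ST_EIS := by
  intro p hp φ hφ U hU w hwU hw0 hwn
  classical
  have : Fact p.Prime := ⟨hp⟩
  have : Fintype SL(2, ZMod p) := Fintype.ofFinite _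
  obtain ⟨hr, -, hS, -, -, hall⟩ := hSPA (ZMod p) φ hφ
  have hsig : ∀ (u : (ZMod p)ˣ), ∀ w ∈ U, eis_S u w ∈ U := by
    intro u w hw
    rw [hU] at hw ⊢
    exact (hall ℂ w hw).2.1 u
  obtain ⟨v, hvU, hv0, hvn, χ, hχ⟩ := eis_eig U hsig w hwU hw0 hwn
  have hvY := (hU v).1 hvU
  have hB : ∀ (u : (ZMod p)ˣ) (b : ZMod p), ∃ c : ℂ,
      ∀ y : SL(2, ZMod p), v (y * (dg u * un b)) = c * v y := by
    intro u b
    refine ⟨χ (u⁻¹ * u⁻¹), fun y => ?_⟩
    rw [← mul_assoc, hvn, ← hχ, (hall ℂ v hvY).2.2.2.1, inv_inv]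
  -- a translate not vanishing at 1
  obtain ⟨g0, hg0⟩ : ∃ g0, v g0 ≠ 0 := by
    by_contra hc
    push Not at hc
    exact hv0 (funext hc)
  have hv' : YS φ (fun y => v (y * g0)) := (hall ℂ v hvY).1 g0
  set A : SL(2, ZMod p) → ℂ := fun y => ∑ u : (ZMod p)ˣ, v (sg u y * g0) with hA
  have hAZ : A ∈ eis_Z v := by
    have : A = ∑ u : (ZMod p)ˣ, fun y => v (sg u y * g0) := by
      funext y
      rw [Finset.sum_apply]
    rw [this]
    exact Submodule.sum_mem _ (fun u _ => eis_Z_sg hB hχ u g0)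
  have hAY : YS φ A := by
    rw [eis_YS]
    intro y
    rw [hA]
    simp only [Finset.mul_sum]
    rw [Finset.sum_comm]
    apply Finset.sum_congr rfl
    intro u _
    have := (eis_YS φ _).1 ((hall ℂ _ hv').2.1 u) y
    exact this
  have hAs : ∀ (u : (ZMod p)ˣ) (y : SL(2, ZMod p)), A (sg u y) = A y := by
    intro u y
    rw [hA]
    dsimp only
    apply Fintype.sum_equiv (Equiv.mulRight u)
    intro t
    rw [sg_sg, Equiv.coe_mulRight]
  have hA1 : A 1 ≠ 0 := by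
    rw [hA]
    simp only [sg_of_one, one_mul, Finset.sum_const, Finset.card_univ, nsmul_eq_mul]
    apply mul_ne_zero _ hg0
    exact_mod_cast Fintype.card_ne_zero
  have hAφ := (hall ℂ A hAY).2.2.2.2.2 hAs
  -- `φ` is in `Z`
  have hφZ : (fun y => (φ y : ℂ)) ∈ eis_Z v := by
    have : (fun y => (φ y : ℂ)) = (A 1)⁻¹ • A := by
      funext y
      rw [Pi.smul_apply, smul_eq_mul, hAφ y, Complex.real_smul]
      field_simp
    rw [this]
    exact (eis_Z v).smul_mem _ hAZ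
  have hSq : (sq φ : ℂ) ≠ 0 := by
    have : sq φ ≠ 0 := by linarith
    exact_mod_cast this
  have hle : U ≤ eis_Z v := by
    intro w hw
    rw [hU] at hw
    have h5 := (hall ℂ w hw).2.2.2.2.1
    have : w = (sq φ : ℂ)⁻¹ • ∑ z : SL(2, ZMod p), w z • fun y => (φ (y * z⁻¹) : ℂ) := by
      funext y
      have h6 := h5 y
      rw [finsum_eq_sum_of_fintype] at h6
      simp only [Complex.real_smul] at h6
      rw [Pi.smul_apply, Finset.sum_apply, smul_eq_mul]
      have h7 : ∑ z : SL(2, ZMod p), (w z • fun y => (φ (y * z⁻¹) : ℂ)) y = (sq φ : ℂ) * w y := by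
        rw [← h6]
        apply Finset.sum_congr rfl
        intro z _
        rw [Pi.smul_apply, smul_eq_mul, mul_comm]
      rw [h7]
      field_simp
    rw [this]
    apply (eis_Z v).smul_mem
    apply Submodule.sum_mem
    intro z _
    apply (eis_Z v).smul_mem
    exact eis_Z_right hB z⁻¹ _ hφZ
  exact (Submodule.finrank_mono hle).trans (eis_Z_rank v)

end Pool.Agent.Helper96.ME
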